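import Mathlib

/-!
Two binary level trees over the rationals whose levels are matched in opposite directions.
A point is a pair (sort, finite set of rationals).  Two points of the same sort split at the
largest element of the symmetric difference; for the sort `false` the level is the negative.
-/

namespace Pool.Agent.P.MP_fec245_lc

open scoped symmDiff

/-- the largest element of the symmetric difference -/
noncomputable def mx (F G : Finset ℚ) : ℚ :=
  if h : (F ∆ G).Nonempty then (F ∆ G).max' h else 0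

lemma sd_nonempty {F G : Finset ℚ} (h : F ≠ G) : (F ∆ G).Nonempty := by
  rw [Finset.nonempty_iff_ne_empty]
  intro h'
  exact h (symmDiff_eq_bot.1 h')

lemma mx_mem {F G : Finset ℚ} (h : F ≠ G) : mx F G ∈ F ∆ G := by
  rw [mx, dif_pos (sd_nonempty h)]
  exact Finset.max'_mem _ _

lemma le_mx {F G : Finset ℚ} {t : ℚ} (ht : t ∈ F ∆ G) : t ≤ mx F G := by
  rw [mx, dif_pos ⟨t, ht⟩]
  exact Finset.le_max' _ _ ht

lemma mx_comm (F G : Finset ℚ) : mx F G = mx G F := by
  unfold mx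
  simp only [symmDiff_comm F G]

lemma mx_eq {F G : Finset ℚ} {s : ℚ} (hs : s ∈ F ∆ G) (h : ∀ t ∈ F ∆ G, t ≤ s) :
    F ≠ G ∧ mx F G = s := by
  have hne : F ≠ G := by
    rintro rfl
    simp at hs
  exact ⟨hne, le_antisymm (h _ (mx_mem hne)) (le_mx hs)⟩

lemma iff_of_lt {F G : Finset ℚ} {t : ℚ} (h : mx F G < t) : t ∈ F ↔ t ∈ G := by
  by_contra hc
  have : t ∈ F ∆ G := by
    rw [Finset.mem_symmDiff]
    tauto
  exact absurd (le_mx this) (not_le.2 h)

lemma mx_xor {F G : Finset ℚ} (h : F ≠ G) : mx F G ∈ F ↔ mx F G ∉ G := by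
  have := mx_mem h
  rw [Finset.mem_symmDiff] at this
  tauto

/-- ultrametric property -/
lemma mx_ultra {F H G : Finset ℚ} (hFG : F ≠ G) (h : mx F H < mx F G) :
    H ≠ G ∧ mx H G = mx F G := by
  apply mx_eq
  · have h1 := iff_of_lt h
    have h2 := mx_xor hFG
    rw [Finset.mem_symmDiff]
    tauto
  · intro t ht
    by_contra hc
    push Not at hc
    have h1 := iff_of_lt hc
    have h2 := iff_of_lt (h.trans hc)
    rw [Finset.mem_symmDiff] at ht
    tauto

/-- binary branching -/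
lemma mx_binary {F H G : Finset ℚ} (hFG : F ≠ G) (hFH : F ≠ H) (hHG : H ≠ G)
    (h : mx F H = mx F G) : mx H G < mx F G := by
  by_contra hc
  push Not at hc
  have h0 := mx_xor hHG
  rcases hc.lt_or_eq with hlt | heq
  · have h1 := iff_of_lt hlt
    have h2 := iff_of_lt (h ▸ hlt)
    tauto
  · have h1 := mx_xor hFG
    have h2 := mx_xor hFH
    rw [h] at h2
    rw [← heq] at h0
    tauto

lemma mx_flip (F : Finset ℚ) (s : ℚ) : F ∆ {s} ≠ F ∧ mx (F ∆ {s}) F = s := by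
  have : (F ∆ {s}) ∆ F = {s} := by
    rw [symmDiff_comm F, symmDiff_assoc, symmDiff_self, symmDiff_bot]
  apply mx_eq
  · rw [this]; simp
  · intro t ht
    rw [this] at ht
    simp at ht
    exact ht.le

/-- the domain -/
abbrev G : Type := Bool × Finset ℚ

/-- the level at which two points of the same sort split -/
noncomputable def lev (a b : G) : ℚ := if a.1 then mx a.2 b.2 else -mx a.2 b.2

/-- a pair of distinct points of the same sort -/
def Val (a b : G) : Prop := a.1 = b.1 ∧ a ≠ b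

lemma Val.ne2 {a b : G} (h : Val a b) : a.2 ≠ b.2 := fun h' => h.2 (Prod.ext h.1 h')

lemma Val.symm {a b : G} (h : Val a b) : Val b a := ⟨h.1.symm, h.2.symm⟩

lemma lev_comm {a b : G} (h : a.1 = b.1) : lev a b = lev b a := by
  unfold lev
  rw [h, mx_comm]

/-- `f` is an isomorphism from `S` onto its image -/
structure Good (S : Set G) (f : G → G) : Prop where
  inj : Set.InjOn f S
  sort : ∀ a ∈ S, (f a).1 = a.1
  le : ∀ a ∈ S, ∀ b ∈ S, ∀ c ∈ S, ∀ d ∈ S, Val a b → Val c d →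
    (lev (f a) (f b) ≤ lev (f c) (f d) ↔ lev a b ≤ lev c d)

lemma Good.val {S : Set G} {f : G → G} (h : Good S f) {a b : G} (ha : a ∈ S) (hb : b ∈ S) :
    Val (f a) (f b) ↔ Val a b := by
  unfold Val
  rw [h.sort a ha, h.sort b hb]
  exact and_congr Iff.rfl ⟨fun h1 h2 => h1 (h2 ▸ rfl), fun h1 h2 => h1 (h.inj ha hb h2)⟩

lemma Good.mono {S T : Set G} {f : G → G} (h : Good T f) (hST : S ⊆ T) : Good S f :=
  ⟨h.inj.mono hST, fun a ha => h.sort a (hST ha), fun a ha b hb c hc d hd =>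
    h.le a (hST ha) b (hST hb) c (hST hc) d (hST hd)⟩

/-- comparison of splitting points inside one sort is preserved -/
lemma Good.mx_lt {S : Set G} {f : G → G} (h : Good S f) {a b c d : G} (ha : a ∈ S) (hb : b ∈ S)
    (hc : c ∈ S) (hd : d ∈ S) (hab : Val a b) (hcd : Val c d) (hac : a.1 = c.1)
    (hlt : mx a.2 b.2 < mx c.2 d.2) : mx (f a).2 (f b).2 < mx (f c).2 (f d).2 := by
  have h1 := h.le a ha b hb c hc d hd hab hcd
  have h2 := h.le c hc d hd a ha b hb hcd hab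
  unfold lev at h1 h2
  rw [h.sort a ha, h.sort c hc, ← hac] at h1 h2
  cases ha1 : a.1
  · simp only [ha1, Bool.false_eq_true, if_false, neg_le_neg_iff] at h1
    exact lt_of_not_ge fun hh => absurd (h1.1 hh) (not_le.2 hlt)
  · simp only [ha1, if_true] at h2
    exact lt_of_not_ge fun hh => absurd (h2.1 hh) (not_le.2 hlt)

/-- a new level can be placed correctly -/
lemma exists_level {S : Set G} (hS : S.Finite) {f : G → G} (h : Good S f) (σ : ℚ) :
    ∃ σ' : ℚ, ∀ c ∈ S, ∀ d ∈ S, Val c d →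
      (lev (f c) (f d) ≤ σ' ↔ lev c d ≤ σ) ∧ (σ' ≤ lev (f c) (f d) ↔ σ ≤ lev c d) := by
  classical
  by_cases hex : ∃ a ∈ S, ∃ b ∈ S, Val a b ∧ lev a b = σ
  · obtain ⟨a, ha, b, hb, hab, rfl⟩ := hex
    exact ⟨lev (f a) (f b), fun c hc d hd hcd =>
      ⟨h.le c hc d hd a ha b hb hcd hab, h.le a ha b hb c hc d hd hab hcd⟩⟩
  · push Not at hex
    set T := hS.toFinset ×ˢ hS.toFinset with hT
    obtain ⟨σ', h1, h2⟩ := Order.exists_between_finsets
      ((T.filter fun p => Val p.1 p.2 ∧ lev p.1 p.2 < σ).image fun p => lev (f p.1) (f p.2))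
      ((T.filter fun p => Val p.1 p.2 ∧ σ < lev p.1 p.2).image fun p => lev (f p.1) (f p.2))
      (by
        intro x hx y hy
        simp only [Finset.mem_image, Finset.mem_filter, hT, Finset.mem_product,
          Set.Finite.mem_toFinset] at hx hy
        obtain ⟨p, ⟨⟨hp1, hp2⟩, hp3, hp4⟩, rfl⟩ := hx
        obtain ⟨q, ⟨⟨hq1, hq2⟩, hq3, hq4⟩, rfl⟩ := hy
        refine lt_of_not_ge fun hh => ?_
        have := (h.le _ hq1 _ hq2 _ hp1 _ hp2 hq3 hp3).1 hh
        linarith)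
    refine ⟨σ', fun c hc d hd hcd => ?_⟩
    rcases lt_or_gt_of_ne (hex c hc d hd hcd) with hlt | hgt
    · have : lev (f c) (f d) < σ' := h1 _ (by
        simp only [Finset.mem_image, Finset.mem_filter, hT, Finset.mem_product,
          Set.Finite.mem_toFinset]
        exact ⟨(c, d), ⟨⟨hc, hd⟩, hcd, hlt⟩, rfl⟩)
      exact ⟨iff_of_true this.le hlt.le, iff_of_false (not_le.2 this) (not_le.2 hlt)⟩
    · have : σ' < lev (f c) (f d) := h2 _ (by
        simp only [Finset.mem_image, Finset.mem_filter, hT, Finset.mem_product,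
          Set.Finite.mem_toFinset]
        exact ⟨(c, d), ⟨⟨hc, hd⟩, hcd, hgt⟩, rfl⟩)
      exact ⟨iff_of_false (not_le.2 this) (not_le.2 hgt), iff_of_true this.le hgt.le⟩

/-- the image of a new point -/
lemma exists_point {S : Set G} (hS : S.Finite) {f : G → G} (h : Good S f) {m : G} (hm : m ∉ S) :
    ∃ (m' : G) (σ σ' : ℚ), m'.1 = m.1 ∧ (∀ c ∈ S, ∀ d ∈ S, Val c d →
      (lev (f c) (f d) ≤ σ' ↔ lev c d ≤ σ) ∧ (σ' ≤ lev (f c) (f d) ↔ σ ≤ lev c d)) ∧
      ∀ b ∈ S, b.1 = m.1 → m' ≠ f b ∧ ((lev m b = σ ∧ lev m' (f b) = σ') ∨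
        ∃ a ∈ S, Val a b ∧ lev m b = lev a b ∧ lev m' (f b) = lev (f a) (f b)) := by
  classical
  by_cases hex : ∃ a ∈ S, a.1 = m.1
  swap
  · obtain ⟨σ', hσ⟩ := exists_level hS h 0
    exact ⟨m, 0, σ', rfl, hσ, fun b hb hb1 => absurd ⟨b, hb, hb1⟩ hex⟩
  obtain ⟨a, ⟨ha, ha1⟩, hmin⟩ := Set.exists_min_image {a | a ∈ S ∧ a.1 = m.1}
    (fun a => mx m.2 a.2) (hS.subset fun _ hx => hx.1) hex
  obtain ⟨σ', hσ⟩ := exists_level hS h (lev m a)
  set s' : ℚ := if m.1 then σ' else -σ' with hs'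
  have hma : m.2 ≠ a.2 := fun hh => hm ((Prod.ext ha1 hh.symm : a = m) ▸ ha)
  have hfl := mx_flip (f a).2 s'
  have hlevs : (if m.1 then s' else -s') = σ' := by
    rw [hs']; cases m.1 <;> simp
  refine ⟨(m.1, (f a).2 ∆ {s'}), lev m a, σ', rfl, hσ, fun b hb hb1 => ?_⟩
  by_cases hab : a = b
  · subst hab
    refine ⟨fun hh => hfl.1 (congrArg Prod.snd hh), Or.inl ⟨rfl, ?_⟩⟩
    unfold lev
    simp only [hfl.2]
    exact hlevs
  have hv : Val a b := ⟨ha1.trans hb1.symm, hab⟩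
  have hfv : Val (f a) (f b) := (h.val ha hb).2 hv
  have hmb : m.2 ≠ b.2 := fun hh => hm ((Prod.ext hb1 hh.symm : b = m) ▸ hb)
  obtain ⟨hσ1, hσ2⟩ := hσ a ha b hb hv
  have hne : mx a.2 b.2 ≠ mx m.2 a.2 := by
    intro hh
    have h1 := mx_binary (F := a.2) (H := b.2) (G := m.2) hma.symm hv.ne2 hmb.symm
      (hh.trans (mx_comm _ _))
    have h2 := hmin b ⟨hb, hb1⟩
    rw [mx_comm b.2, mx_comm a.2] at h1
    exact absurd h2 (not_le.2 h1)
  have hcmp : (mx a.2 b.2 < mx m.2 a.2 → mx (f a).2 (f b).2 < s') ∧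
      (mx m.2 a.2 < mx a.2 b.2 → s' < mx (f a).2 (f b).2) := by
    unfold lev at hσ1 hσ2
    rw [h.sort a ha, ha1] at hσ1 hσ2
    rw [hs']
    cases hm1 : m.1
    · simp only [hm1, Bool.false_eq_true, if_false, neg_le_neg_iff] at hσ1 hσ2 ⊢
      constructor
      · intro hh
        have := mt hσ1.1 (not_le.2 hh)
        linarith [not_le.1 this]
      · intro hh
        have := mt hσ2.1 (not_le.2 hh)
        linarith [not_le.1 this]
    · simp only [hm1, if_true] at hσ1 hσ2 ⊢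
      constructor
      · intro hh
        exact not_le.1 (mt hσ2.1 (not_le.2 hh))
      · intro hh
        exact not_le.1 (mt hσ1.1 (not_le.2 hh))
  rcases lt_or_gt_of_ne hne with hlt | hgt
  · have e1 := mx_ultra (F := a.2) (H := b.2) (G := m.2) hma.symm (by rwa [mx_comm a.2 m.2])
    have e2 := mx_ultra (F := (f a).2) (H := (f b).2) (G := (f a).2 ∆ {s'}) hfl.1.symm
      (by rw [mx_comm (f a).2 ((f a).2 ∆ {s'}), hfl.2]; exact hcmp.1 hlt)
    refine ⟨fun hh => e2.1 (congrArg Prod.snd hh).symm, Or.inl ⟨?_, ?_⟩⟩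
    · unfold lev
      rw [mx_comm m.2 b.2, e1.2, mx_comm a.2 m.2]
    · unfold lev
      simp only
      rw [mx_comm _ (f b).2, e2.2, mx_comm (f a).2, hfl.2]
      exact hlevs
  · have e1 := mx_ultra (F := a.2) (H := m.2) (G := b.2) hv.ne2 (by rwa [mx_comm a.2 m.2])
    have e2 := mx_ultra (F := (f a).2) (H := (f a).2 ∆ {s'}) (G := (f b).2) hfv.ne2
      (by rw [mx_comm (f a).2 ((f a).2 ∆ {s'}), hfl.2]; exact hcmp.2 hgt)
    refine ⟨fun hh => e2.1 (congrArg Prod.snd hh), Or.inr ⟨a, ha, hv, ?_, ?_⟩⟩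
    · unfold lev
      rw [e1.2, ha1]
    · unfold lev
      simp only
      rw [e2.2, h.sort a ha, ha1]

/-- one-point extension -/
lemma Good.extend {S : Set G} (hS : S.Finite) {f : G → G} (h : Good S f) (m : G) :
    ∃ g : G → G, Good (insert m S) g ∧ ∀ a ∈ S, g a = f a := by
  classical
  by_cases hm : m ∈ S
  · exact ⟨f, by rwa [Set.insert_eq_of_mem hm], fun _ _ => rfl⟩
  obtain ⟨m', σ, σ', hm1, hσ, hb⟩ := exists_point hS h hm
  set g := Function.update f m m' with hg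
  have hgm : g m = m' := by simp [hg]
  have hgS : ∀ a ∈ S, g a = f a := fun a ha => by
    have hne : a ≠ m := fun hh => hm (hh ▸ ha)
    rw [hg, Function.update_of_ne hne]
  have hsort : ∀ a ∈ insert m S, (g a).1 = a.1 := by
    rintro a (rfl | ha)
    · rw [hgm, hm1]
    · rw [hgS a ha, h.sort a ha]
  have hneq : ∀ b ∈ S, m' ≠ f b := fun b hbS hh => by
    have : b.1 = m.1 := by rw [← h.sort b hbS, ← hh, hm1]
    exact (hb b hbS this).1 hh
  let Φ : ℚ → ℚ → Prop := fun u u' => (u = σ ∧ u' = σ') ∨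
    ∃ c ∈ S, ∃ d ∈ S, Val c d ∧ u = lev c d ∧ u' = lev (f c) (f d)
  have hΦ : ∀ u u' w w', Φ u u' → Φ w w' → (u' ≤ w' ↔ u ≤ w) := by
    rintro u u' w w' (⟨rfl, rfl⟩ | ⟨c, hc, d, hd, hcd, rfl, rfl⟩)
      (⟨rfl, rfl⟩ | ⟨c', hc', d', hd', hcd', rfl, rfl⟩)
    · simp
    · exact (hσ c' hc' d' hd' hcd').2
    · exact (hσ c hc d hd hcd).1
    · exact h.le c hc d hd c' hc' d' hd' hcd hcd'
  have hmΦ : ∀ b ∈ S, b.1 = m.1 → Φ (lev m b) (lev m' (f b)) := by
    intro b hbS hb1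
    rcases (hb b hbS hb1).2 with h1 | ⟨a, ha, hv, h1, h2⟩
    · exact Or.inl h1
    · exact Or.inr ⟨a, ha, b, hbS, hv, h1, h2⟩
  have hall : ∀ a ∈ insert m S, ∀ b ∈ insert m S, Val a b → Φ (lev a b) (lev (g a) (g b)) := by
    rintro a (rfl | ha) b (rfl | hb') hv
    · exact absurd rfl hv.2
    · rw [hgm, hgS b hb']
      exact hmΦ b hb' hv.1.symm
    · rw [hgm, hgS a ha, lev_comm hv.1, lev_comm (a := f a) (by rw [h.sort a ha, hm1, hv.1])]
      exact hmΦ a ha hv.1
    · rw [hgS a ha, hgS b hb']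
      exact Or.inr ⟨a, ha, b, hb', hv, rfl, rfl⟩
  refine ⟨g, ⟨?_, hsort, fun a ha b hb c hc d hd hab hcd =>
    hΦ _ _ _ _ (hall a ha b hb hab) (hall c hc d hd hcd)⟩, hgS⟩
  rintro a (rfl | ha) b (rfl | hb') hab
  · rfl
  · rw [hgm, hgS b hb'] at hab
    exact absurd hab (hneq b hb')
  · rw [hgm, hgS a ha] at hab
    exact absurd hab.symm (hneq a ha)
  · rw [hgS a ha, hgS b hb'] at hab
    exact h.inj ha hb' hab

end Pool.Agent.P.MP_fec245_lc
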