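import Pool.Agent.P.MP_fec245_lc.Basic

/-!
The colouring `|F ∩ (-G)| mod m` of mixed pairs cannot be made canonical with finitely many
classes.
-/

namespace Pool.Agent.P.MP_fec245_lc

open scoped symmDiff

/-- number of `s` in `F` with `-s` in `H` -/
noncomputable def cnt (F H : Finset ℚ) : ℤ := ∑ s ∈ F, if -s ∈ H then 1 else 0

/-- the sign of a Boolean -/
def sg (b : Bool) : ℤ := if b then 1 else -1

lemma cnt_eq {F U : Finset ℚ} (hU : F ⊆ U) (H : Finset ℚ) :
    cnt F H = ∑ s ∈ U, (if s ∈ F then (1 : ℤ) else 0) * (if -s ∈ H then 1 else 0) := by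
  unfold cnt
  rw [← Finset.sum_subset hU]
  · exact Finset.sum_congr rfl fun s hs => by simp [hs]
  · intro s _ hs
    simp [hs]

lemma cnt_alt {F F' H H' : Finset ℚ} (hF : F ≠ F') (hH : H ≠ H') (h : mx F F' = -mx H H') :
    cnt F H - cnt F' H - cnt F H' + cnt F' H' =
      sg (decide (mx F F' ∈ F)) * sg (decide (mx H H' ∈ H)) := by
  rw [cnt_eq (U := F ∪ F') Finset.subset_union_left H,
    cnt_eq (U := F ∪ F') Finset.subset_union_right H,
    cnt_eq (U := F ∪ F') Finset.subset_union_left H',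
    cnt_eq (U := F ∪ F') Finset.subset_union_right H',
    ← Finset.sum_sub_distrib, ← Finset.sum_sub_distrib, ← Finset.sum_add_distrib]
  have h1 := mx_xor hF
  have h2 := mx_xor hH
  rw [Finset.sum_eq_single (mx F F')]
  · have e : -mx F F' = mx H H' := by rw [h, neg_neg]
    rw [e]
    by_cases a1 : mx F F' ∈ F <;> by_cases a2 : mx H H' ∈ H
    · simp [sg, a1, a2, h1.1 a1, h2.1 a2]
    · have : mx H H' ∈ H' := by tauto
      simp [sg, a1, a2, h1.1 a1, this]
    · have : mx F F' ∈ F' := by tauto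
      simp [sg, a1, a2, h2.1 a2, this]
    · have b1 : mx F F' ∈ F' := by tauto
      have b2 : mx H H' ∈ H' := by tauto
      simp [sg, a1, a2, b1, b2]
  · intro t _ ht
    rcases lt_or_gt_of_ne ht with hlt | hgt
    · have := iff_of_lt (F := H) (G := H') (t := -t) (by linarith)
      simp only [this]
      ring
    · have := iff_of_lt hgt
      simp only [this]
      ring
  · intro hn
    exfalso
    rw [Finset.mem_union] at hn
    tauto

/-- simultaneous approximation by pigeonhole -/
lemma dirichlet (O : Type) [Finite O] : ∃ M : ℕ, ∀ w : O → ZMod (8 * (M + 1)),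
    ∃ (j : ℤ) (r : O → ℤ), 1 ≤ j ∧ j ≤ M ∧ (∀ o, |r o| ≤ M) ∧
      ∀ o, (r o : ZMod (8 * (M + 1))) = j * w o := by
  classical
  cases nonempty_fintype O
  obtain ⟨M, hM⟩ : ∃ M, M = Fintype.card (O → Fin 8) := ⟨_, rfl⟩
  refine ⟨M, fun w => ?_⟩
  have : NeZero (8 * (M + 1)) := ⟨by omega⟩
  let val : Fin (M + 1) → O → ℕ := fun j o => (((j : ℕ) : ZMod (8 * (M + 1))) * w o).val
  have hval : ∀ j o, val j o < 8 * (M + 1) := fun j o => ZMod.val_lt _
  have hcast : ∀ j o, ((val j o : ℕ) : ZMod (8 * (M + 1))) = (j : ℕ) * w o := fun j o =>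
    ZMod.natCast_zmod_val _
  let box : Fin (M + 1) → O → Fin 8 := fun j o =>
    ⟨val j o / (M + 1), by
      apply Nat.div_lt_of_lt_mul
      have := hval j o
      omega⟩
  obtain ⟨a, b, hab, he⟩ := Fintype.exists_ne_map_eq_of_card_lt box (by simp [hM])
  have key : ∀ a b : Fin (M + 1), a < b → box a = box b → ∃ (j : ℤ) (r : O → ℤ), 1 ≤ j ∧ j ≤ M ∧
      (∀ o, |r o| ≤ M) ∧ ∀ o, (r o : ZMod (8 * (M + 1))) = j * w o := by
    intro a b hlt he
    have hlt' : (a : ℕ) < b := hlt
    have hb := b.2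
    refine ⟨(b : ℕ) - (a : ℕ), fun o => (val b o : ℤ) - (val a o : ℤ),
      by omega, by omega, fun o => ?_, fun o => ?_⟩
    · have h1 : val a o / (M + 1) = val b o / (M + 1) :=
        congrArg Fin.val (congrFun he o)
      have h2 := Nat.div_add_mod (val a o) (M + 1)
      have h3 := Nat.div_add_mod (val b o) (M + 1)
      have h4 := Nat.mod_lt (val a o) (show 0 < M + 1 by omega)
      have h5 := Nat.mod_lt (val b o) (show 0 < M + 1 by omega)
      rw [h1] at h2
      show |(val b o : ℤ) - (val a o : ℤ)| ≤ M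
      generalize (M + 1) * (val b o / (M + 1)) = q at h2 h3
      generalize val a o % (M + 1) = q1 at h2 h4
      generalize val b o % (M + 1) = q2 at h3 h5
      rw [abs_le]
      constructor <;> omega
    · push_cast
      rw [hcast, hcast]
      ring
  rcases lt_or_gt_of_ne hab with hlt | hgt
  · exact key a b hlt he
  · exact key b a hgt he.symm

/-- a family of points adapted to an orientation of the tree -/
lemma adapt {ι : Type} [DecidableEq ι] (ℓ : ι → ℚ) (hℓ : Function.Injective ℓ)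
    (β : Finset ℚ → Finset ℚ → Bool) (anti : ∀ F H, F ≠ H → β F H = !β H F)
    (cone : ∀ F H K, F ≠ K → mx F H < mx F K → β H K = β F K) (D : Finset ι) :
    ∃ x : Finset ι → Finset ℚ, (∀ w w', (∀ i ∈ D, i ∈ w ↔ i ∈ w') → x w = x w') ∧
      ∀ w, ∀ i ∈ D, x w ≠ x (w ∆ {i}) ∧ mx (x w) (x (w ∆ {i})) = ℓ i ∧
        β (x w) (x (w ∆ {i})) = decide (i ∈ w) := by
  have step : ∀ (F K F' : Finset ℚ) (t : ℚ), F ≠ K → t < mx F K → (F' = F ∨ F' = F ∆ {t}) →
      F' ≠ K ∧ mx F' K = mx F K ∧ β F' K = β F K := by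
    rintro F K F' t hFK ht (rfl | rfl)
    · exact ⟨hFK, rfl, rfl⟩
    · have h1 : mx F (F ∆ {t}) < mx F K := by rwa [mx_comm F (F ∆ {t}), (mx_flip F t).2]
      exact ⟨(mx_ultra hFK h1).1, (mx_ultra hFK h1).2, cone _ _ _ hFK h1⟩
  induction D using Finset.induction_on_min_value ℓ with
  | empty => exact ⟨fun _ => ∅, fun _ _ _ => rfl, fun _ i hi => absurd hi (by simp)⟩
  | insert a D ha hmin ih =>
    obtain ⟨x, hx1, hx2⟩ := ih
    let x' : Finset ι → Finset ℚ := fun w =>
      if β (x w ∆ {ℓ a}) (x w) = decide (a ∈ w) then x w ∆ {ℓ a} else x w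
    have hx' : ∀ w, x' w = x w ∨ x' w = x w ∆ {ℓ a} := fun w => by
      by_cases hc : β (x w ∆ {ℓ a}) (x w) = decide (a ∈ w)
      · exact Or.inr (if_pos hc)
      · exact Or.inl (if_neg hc)
    refine ⟨x', fun w w' hw => ?_, fun w i hi => ?_⟩
    · have e1 := hx1 w w' fun i hi => hw i (Finset.mem_insert_of_mem hi)
      have e2 := hw a (Finset.mem_insert_self _ _)
      simp only [x', e1, e2]
    · rcases Finset.mem_insert.1 hi with rfl | hiD
      · have e1 : x (w ∆ {i}) = x w := hx1 _ _ fun k hk => by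
          have : k ≠ i := fun hh => ha (hh ▸ hk)
          simp [Finset.mem_symmDiff, this]
        have e2 : decide (i ∈ w ∆ {i}) = !decide (i ∈ w) := by
          by_cases hh : i ∈ w <;> simp [Finset.mem_symmDiff, hh]
        have hfl := mx_flip (x w) (ℓ i)
        by_cases hc : β (x w ∆ {ℓ i}) (x w) = decide (i ∈ w)
        · have a1 : x' w = x w ∆ {ℓ i} := if_pos hc
          have a2 : x' (w ∆ {i}) = x w := by
            simp only [x', e1, e2, hc]
            rw [if_neg (by cases decide (i ∈ w) <;> simp)]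
          rw [a1, a2]
          exact ⟨hfl.1, hfl.2, hc⟩
        · have a1 : x' w = x w := if_neg hc
          have hc' : β (x w ∆ {ℓ i}) (x w) = !decide (i ∈ w) := by
            revert hc
            cases β (x w ∆ {ℓ i}) (x w) <;> cases decide (i ∈ w) <;> simp
          have a2 : x' (w ∆ {i}) = x w ∆ {ℓ i} := by
            simp only [x', e1, e2, hc', if_true]
          rw [a1, a2]
          refine ⟨hfl.1.symm, by rw [mx_comm, hfl.2], ?_⟩
          rw [anti _ _ hfl.1.symm, hc', Bool.not_not]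
      · obtain ⟨h1, h2, h3⟩ := hx2 w i hiD
        have hlt : ℓ a < ℓ i :=
          lt_of_le_of_ne (hmin i hiD) fun hh => ha (hℓ hh ▸ hiD)
        obtain ⟨p1, p2, p3⟩ := step (x w) (x (w ∆ {i})) (x' w) (ℓ a) h1 (h2 ▸ hlt) (hx' w)
        obtain ⟨q1, q2, q3⟩ := step (x (w ∆ {i})) (x' w) (x' (w ∆ {i})) (ℓ a) p1.symm
          (by rw [mx_comm, p2, h2]; exact hlt) (hx' _)
        refine ⟨q1.symm, by rw [mx_comm, q2, mx_comm, p2, h2], ?_⟩
        rw [anti _ _ q1.symm, q3, ← anti _ _ p1, p3, h3]

/-- averaging over the hypercube -/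
lemma cube {ι : Type} [Fintype ι] [DecidableEq ι] (θ : Finset ι → Finset ι → ℤ) (j : ℤ)
    (h : ∀ w u i, (i ∈ w ↔ i ∈ u) →
      θ w u - θ (w ∆ {i}) u - θ w (u ∆ {i}) + θ (w ∆ {i}) (u ∆ {i}) = j) (E : Finset ι) :
    2 * (∑ w, θ w w - ∑ w, θ w (w ∆ E)) = j * E.card * Fintype.card (Finset ι) := by
  induction E using Finset.induction_on with
  | empty =>
    have : ∀ w : Finset ι, w ∆ ∅ = w := fun w => symmDiff_bot w
    simp [this]
  | insert s E hs ih =>
    have hinv : Function.Involutive fun w : Finset ι => w ∆ {s} := fun w =>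
      symmDiff_symmDiff_cancel_right _ _
    have hE : ∀ w : Finset ι, w ∆ insert s E = (w ∆ E) ∆ {s} := fun w => by
      ext k
      by_cases hk : k = s
      · subst hk
        simp [Finset.mem_symmDiff, hs]
      · simp [Finset.mem_symmDiff, hk]
    have s1 : ∑ w, θ (w ∆ {s}) (w ∆ E) = ∑ w, θ w (w ∆ insert s E) := by
      rw [← Equiv.sum_comp hinv.toPerm]
      refine Finset.sum_congr rfl fun w _ => ?_
      simp only [Function.Involutive.coe_toPerm]
      rw [symmDiff_symmDiff_cancel_right, hE, symmDiff_right_comm]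
    have s2 : ∑ w, θ (w ∆ {s}) ((w ∆ E) ∆ {s}) = ∑ w, θ w (w ∆ E) := by
      rw [← Equiv.sum_comp hinv.toPerm]
      refine Finset.sum_congr rfl fun w _ => ?_
      simp only [Function.Involutive.coe_toPerm]
      rw [symmDiff_symmDiff_cancel_right, symmDiff_right_comm w {s} E,
        symmDiff_symmDiff_cancel_right]
    have s3 : ∑ w, (θ w (w ∆ E) - θ (w ∆ {s}) (w ∆ E) - θ w ((w ∆ E) ∆ {s}) +
        θ (w ∆ {s}) ((w ∆ E) ∆ {s})) = ∑ _w : Finset ι, j :=
      Finset.sum_congr rfl fun w _ => h w (w ∆ E) s (by simp [Finset.mem_symmDiff, hs])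
    rw [Finset.sum_add_distrib, Finset.sum_sub_distrib, Finset.sum_sub_distrib, s1, s2] at s3
    simp only [← hE, Finset.sum_const, Finset.card_univ, nsmul_eq_mul] at s3
    rw [Finset.card_insert_of_notMem hs]
    push_cast
    linear_combination ih + s3

/-- the colouring of pairs -/
noncomputable def col (m : ℕ) (a b : G) : Bool × ZMod m :=
  (decide (mx a.2 b.2 ∈ a.2), (cnt a.2 b.2 : ZMod m))

theorem core {O : Type} [Finite O] (cl : G → G → O) : ∃ m : ℕ, 0 < m ∧
    ¬ ∀ B : Finset G, ∃ f : G → G, Good B f ∧ ∃ v : O → Bool × ZMod m,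
      ∀ x ∈ B, ∀ y ∈ B, col m (f x) (f y) = v (cl x y) := by
  classical
  obtain ⟨M, hM⟩ := dirichlet O
  refine ⟨8 * (M + 1), by omega, fun H => ?_⟩
  have : NeZero (8 * (M + 1)) := ⟨by omega⟩
  have hv : ∃ v : O → Bool × ZMod (8 * (M + 1)), ∀ B : Finset G, ∃ f : G → G, Good B f ∧
      ∀ x ∈ B, ∀ y ∈ B, col _ (f x) (f y) = v (cl x y) := by
    by_contra hc
    push Not at hc
    choose Bv hBv using hc
    cases nonempty_fintype (O → Bool × ZMod (8 * (M + 1)))
    obtain ⟨f, hf, v, hfv⟩ := H (Finset.univ.biUnion Bv)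
    have hsub : Bv v ⊆ Finset.univ.biUnion Bv :=
      Finset.subset_biUnion_of_mem Bv (Finset.mem_univ v)
    obtain ⟨x, hx, y, hy, hne⟩ := hBv v f (hf.mono (Finset.coe_subset.2 hsub))
    exact hne (hfv x (hsub hx) y (hsub hy))
  obtain ⟨v, hv⟩ := hv
  obtain ⟨j, r, hj1, hjM, hr, hrj⟩ := hM fun o => (v o).2
  let β : Bool → Finset ℚ → Finset ℚ → Bool := fun b F K => (v (cl (b, F) (b, K))).1
  have anti : ∀ b F K, F ≠ K → β b F K = !β b K F := by
    intro b F K hFK
    obtain ⟨f, hf, hfv⟩ := hv {(b, F), (b, K)}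
    have hval : Val (f (b, F)) (f (b, K)) := (hf.val (by simp) (by simp)).2
      ⟨rfl, fun hh => hFK (congrArg Prod.snd hh)⟩
    have e1 := congrArg Prod.fst (hfv (b, F) (by simp) (b, K) (by simp))
    have e2 := congrArg Prod.fst (hfv (b, K) (by simp) (b, F) (by simp))
    simp only [β, ← e1, ← e2, col]
    have := mx_xor hval.ne2
    rw [mx_comm (f (b, K)).2]
    by_cases hh : mx (f (b, F)).2 (f (b, K)).2 ∈ (f (b, K)).2 <;> simp [hh, this]
  have cone : ∀ b F L K, F ≠ K → mx F L < mx F K → β b L K = β b F K := by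
    intro b F L K hFK hlt
    by_cases hFL : F = L
    · rw [hFL]
    obtain ⟨f, hf, hfv⟩ := hv {(b, F), (b, L), (b, K)}
    have v1 : Val (b, F) (b, L) := ⟨rfl, fun hh => hFL (congrArg Prod.snd hh)⟩
    have v2 : Val (b, F) (b, K) := ⟨rfl, fun hh => hFK (congrArg Prod.snd hh)⟩
    have hval : Val (f (b, F)) (f (b, K)) := (hf.val (by simp) (by simp)).2 v2
    have hlt' := hf.mx_lt (a := (b, F)) (b := (b, L)) (c := (b, F)) (d := (b, K))
      (by simp) (by simp) (by simp) (by simp) v1 v2 rfl hlt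
    have e1 := congrArg Prod.fst (hfv (b, L) (by simp) (b, K) (by simp))
    have e2 := congrArg Prod.fst (hfv (b, F) (by simp) (b, K) (by simp))
    simp only [β, ← e1, ← e2, col]
    rw [(mx_ultra hval.ne2 hlt').2]
    simp only [iff_of_lt hlt']
  have eqn : ∀ F F' K K', F ≠ F' → K ≠ K' → mx F F' = -mx K K' →
      r (cl (true, F) (false, K)) - r (cl (true, F') (false, K)) - r (cl (true, F) (false, K')) +
        r (cl (true, F') (false, K')) = j * (sg (β true F F') * sg (β false K K')) := by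
    intro F F' K K' hF hK hlev
    obtain ⟨f, hf, hfv⟩ := hv {(true, F), (true, F'), (false, K), (false, K')}
    have v1 : Val (true, F) (true, F') := ⟨rfl, fun hh => hF (congrArg Prod.snd hh)⟩
    have v2 : Val (false, K) (false, K') := ⟨rfl, fun hh => hK (congrArg Prod.snd hh)⟩
    have w1 : Val (f (true, F)) (f (true, F')) := (hf.val (by simp) (by simp)).2 v1
    have w2 : Val (f (false, K)) (f (false, K')) := (hf.val (by simp) (by simp)).2 v2
    have l0 : lev (true, F) (true, F') = lev (false, K) (false, K') := by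
      simp [lev, hlev]
    have l1 := (hf.le (true, F) (by simp) (true, F') (by simp) (false, K) (by simp) (false, K')
      (by simp) v1 v2).2 l0.le
    have l2 := (hf.le (false, K) (by simp) (false, K') (by simp) (true, F) (by simp) (true, F')
      (by simp) v2 v1).2 l0.ge
    have l3 := le_antisymm l1 l2
    unfold lev at l3
    rw [hf.sort (true, F) (by simp), hf.sort (false, K) (by simp)] at l3
    simp only [if_true, Bool.false_eq_true, if_false] at l3
    have c0 := cnt_alt w1.ne2 w2.ne2 l3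
    have e1 := congrArg Prod.fst (hfv (true, F) (by simp) (true, F') (by simp))
    have e2 := congrArg Prod.fst (hfv (false, K) (by simp) (false, K') (by simp))
    have d1 := congrArg Prod.snd (hfv (true, F) (by simp) (false, K) (by simp))
    have d2 := congrArg Prod.snd (hfv (true, F') (by simp) (false, K) (by simp))
    have d3 := congrArg Prod.snd (hfv (true, F) (by simp) (false, K') (by simp))
    have d4 := congrArg Prod.snd (hfv (true, F') (by simp) (false, K') (by simp))
    simp only [col] at e1 e2 d1 d2 d3 d4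
    rw [e1, e2] at c0
    set ε : ℤ := sg (β true F F') * sg (β false K K') with hε
    have hε1 : ε = 1 ∨ ε = -1 := by
      rw [hε]
      cases β true F F' <;> cases β false K K' <;> simp [sg]
    have c1 := congrArg (Int.cast : ℤ → ZMod (8 * (M + 1))) c0
    push_cast at c1
    rw [d1, d2, d3, d4] at c1
    have z : ((r (cl (true, F) (false, K)) - r (cl (true, F') (false, K)) -
        r (cl (true, F) (false, K')) + r (cl (true, F') (false, K')) - j * ε : ℤ) :
        ZMod (8 * (M + 1))) = 0 := by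
      push_cast
      rw [hrj, hrj, hrj, hrj]
      linear_combination (j : ZMod (8 * (M + 1))) * c1
    rw [ZMod.intCast_zmod_eq_zero_iff_dvd] at z
    have b1 := abs_le.1 (hr (cl (true, F) (false, K)))
    have b2 := abs_le.1 (hr (cl (true, F') (false, K)))
    have b3 := abs_le.1 (hr (cl (true, F) (false, K')))
    have b4 := abs_le.1 (hr (cl (true, F') (false, K')))
    have z0 := Int.eq_zero_of_abs_lt_dvd z (by
      rw [abs_lt]
      push_cast
      rcases hε1 with h1 | h1 <;> rw [h1] <;> constructor <;> omega)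
    linarith
  obtain ⟨x, -, hx⟩ := adapt (ι := Fin (4 * M + 1)) (fun i => ((i : ℕ) : ℚ))
    (fun a b hab => Fin.ext (Nat.cast_injective (R := ℚ) hab)) (β true) (anti true) (cone true) Finset.univ
  obtain ⟨y, -, hy⟩ := adapt (ι := Fin (4 * M + 1)) (fun i => -((i : ℕ) : ℚ))
    (fun a b hab => Fin.ext (Nat.cast_injective (R := ℚ) (neg_injective hab))) (β false) (anti false)
    (cone false) Finset.univ
  have hc := cube (fun w u => r (cl (true, x w) (false, y u))) j (by
    intro w u i hi
    obtain ⟨a1, a2, a3⟩ := hx w i (Finset.mem_univ _)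
    obtain ⟨b1, b2, b3⟩ := hy u i (Finset.mem_univ _)
    rw [eqn _ _ _ _ a1 b1 (by rw [a2, b2, neg_neg]), a3, b3]
    by_cases hh : i ∈ u <;> simp [sg, hi, hh]) Finset.univ
  set N : ℕ := Fintype.card (Finset (Fin (4 * M + 1))) with hN
  have hNpos : (0 : ℤ) < N := by exact_mod_cast Fintype.card_pos
  have u1 : ∑ w : Finset (Fin (4 * M + 1)), r (cl (true, x w) (false, y w)) ≤ N * M := by
    have := Finset.sum_le_card_nsmul Finset.univ
      (fun w : Finset (Fin (4 * M + 1)) => r (cl (true, x w) (false, y w))) (M : ℤ)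
      fun w _ => (abs_le.1 (hr _)).2
    simpa [hN] using this
  have u2 : -(N * M : ℤ) ≤ ∑ w : Finset (Fin (4 * M + 1)),
      r (cl (true, x w) (false, y (w ∆ Finset.univ))) := by
    have := Finset.card_nsmul_le_sum Finset.univ
      (fun w : Finset (Fin (4 * M + 1)) => r (cl (true, x w) (false, y (w ∆ Finset.univ))))
      (-M : ℤ) fun w _ => (abs_le.1 (hr _)).1
    simpa [hN] using this
  rw [Finset.card_univ, Fintype.card_fin] at hc
  push_cast at hc
  have hM0 : (0 : ℤ) ≤ M := by positivity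
  have : (4 * M + 1 : ℤ) * N ≤ j * (4 * M + 1) * N := by
    apply mul_le_mul_of_nonneg_right _ hNpos.le
    nlinarith
  nlinarith

end Pool.Agent.P.MP_fec245_lc
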