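import Pool.Agent.P.MP_fec245_lc.Cube

/-!
The structure as a first-order structure, its homogeneity, and the reduction of the Ramsey
property of an oligomorphic expansion to the colouring statement `core`.
-/

namespace Pool.Agent.P.MP_fec245_lc

open FirstOrder FirstOrder.Language CategoryTheory

/-- one unary and one 4-ary relation symbol -/
inductive Rel : ℕ → Type
  | U : Rel 1
  | R : Rel 4

/-- the language -/
def lang : FirstOrder.Language.{0, 0} := ⟨fun _ => Empty, Rel⟩

lemma lang_rel : lang.IsRelational := fun _ => inferInstanceAs (IsEmpty Empty)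

lemma lang_finite : Finite lang.Symbols := by
  let f : Bool → lang.Symbols := fun b =>
    if b then Sum.inr ⟨1, Rel.U⟩ else Sum.inr ⟨4, Rel.R⟩
  refine Finite.of_surjective f ?_
  rintro (⟨n, x⟩ | ⟨n, x⟩)
  · exact Empty.elim x
  · cases x
    · exact ⟨true, rfl⟩
    · exact ⟨false, rfl⟩

/-- interpretation of the symbols -/
def interp : {n : ℕ} → Rel n → (Fin n → G) → Prop
  | _, .U, v => (v 0).1 = true
  | _, .R, v => Val (v 0) (v 1) ∧ Val (v 2) (v 3) ∧ lev (v 0) (v 1) ≤ lev (v 2) (v 3)

/-- the structure -/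
@[reducible] def str : lang.Structure G where
  funMap f := Empty.elim f
  RelMap r v := interp r v

lemma good_of {S : Set G} {f : G → G} (hinj : Set.InjOn f S)
    (h : ∀ (n : ℕ) (r : Rel n) (v : Fin n → G), (∀ i, v i ∈ S) →
      (interp r (f ∘ v) ↔ interp r v)) : Good S f := by
  have hsort : ∀ a ∈ S, (f a).1 = a.1 := fun a ha => by
    have := h 1 Rel.U ![a] (by simpa using ha)
    simp only [interp, Function.comp_apply, Matrix.cons_val_zero] at this
    exact Bool.eq_iff_iff.2 this
  refine ⟨hinj, hsort, fun a ha b hb c hc d hd hab hcd => ?_⟩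
  have hv : ∀ a ∈ S, ∀ b ∈ S, Val a b → Val (f a) (f b) := fun a ha b hb hab =>
    ⟨by rw [hsort a ha, hsort b hb, hab.1], fun hh => hab.2 (hinj ha hb hh)⟩
  have := h 4 Rel.R ![a, b, c, d] (by
    intro i
    fin_cases i <;> simpa)
  simp only [interp, Function.comp_apply, Matrix.cons_val_zero, Matrix.cons_val_one,
    Matrix.cons_val] at this
  have h1 := hv a ha b hb hab
  have h2 := hv c hc d hd hcd
  tauto

lemma Good.interp_iff {S : Set G} {f : G → G} (h : Good S f) {n : ℕ} (r : Rel n) (v : Fin n → G)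
    (hv : ∀ i, v i ∈ S) : interp r (f ∘ v) ↔ interp r v := by
  cases r
  · simp only [interp, Function.comp_apply, h.sort _ (hv 0)]
  · simp only [interp, Function.comp_apply, h.val (hv 0) (hv 1), h.val (hv 2) (hv 3)]
    exact and_congr_right fun h1 => and_congr_right fun h2 =>
      h.le _ (hv 0) _ (hv 1) _ (hv 2) _ (hv 3) h1 h2

/-- extension of a map on a subset by the identity -/
noncomputable def tot {S : Set G} (e : S → G) (x : G) : G := by
  classical
  exact if h : x ∈ S then e ⟨x, h⟩ else x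

lemma tot_apply {S : Set G} (e : S → G) (x : S) : tot e x = e x := by
  unfold tot
  exact dif_pos x.2

lemma good_tot {S : Set G} (e : S → G) (hinj : Function.Injective e)
    (h : ∀ (n : ℕ) (r : Rel n) (v : Fin n → S), interp r (e ∘ v) ↔ interp r (Subtype.val ∘ v)) :
    Good S (tot e) := by
  refine good_of (fun a ha b hb hab => ?_) fun n r v hv => ?_
  · rw [tot_apply e ⟨a, ha⟩, tot_apply e ⟨b, hb⟩] at hab
    exact congrArg Subtype.val (hinj hab)
  · have e1 : tot e ∘ v = e ∘ fun i => ⟨v i, hv i⟩ := funext fun i => tot_apply e ⟨v i, hv i⟩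
    rw [e1]
    exact h n r fun i => ⟨v i, hv i⟩

theorem homogeneous : @IsUltrahomogeneous lang G str := by
  let := str
  have := lang_rel
  have := lang_finite
  have : Countable (Σ l, lang.Functions l) := by
    have : IsEmpty (Σ l, lang.Functions l) := ⟨fun x => Empty.elim x.2⟩
    infer_instance
  rw [isUltrahomogeneous_iff_IsExtensionPair Structure.cg_of_countable,
    isExtensionPair_iff_exists_embedding_closure_singleton_sup]
  intro S hS f m
  have hfin : (S : Set G).Finite := (S.fg_iff_structure_fg.1 hS).finite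
  have hgood : Good (S : Set G) (tot fun x => f x) :=
    good_tot _ f.injective fun n r v => f.map_rel (n := n) r v
  obtain ⟨g, hg, hgf⟩ := hgood.extend hfin m
  have hmem : ∀ x : (Substructure.closure lang {m} ⊔ S : lang.Substructure G),
      (x : G) ∈ insert m (S : Set G) := by
    intro x
    have hle : (Substructure.closure lang {m} ⊔ S : lang.Substructure G) ≤
        Substructure.closure lang (insert m (S : Set G)) := by
      refine sup_le (Substructure.closure_mono (by simp)) fun y hy => ?_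
      exact Substructure.subset_closure (Set.mem_insert_of_mem _ hy)
    exact (Substructure.mem_closure_iff_of_isRelational lang _ _).1 (hle x.2)
  refine ⟨⟨⟨fun x => g x, fun x y hxy => Subtype.ext (hg.inj (hmem x) (hmem y) hxy)⟩,
    fun {n} F => Empty.elim F, fun {n} r v => ?_⟩, ?_⟩
  · exact hg.interp_iff r (Subtype.val ∘ v) fun i => hmem (v i)
  · ext1 x
    exact ((hgf x x.2).trans (tot_apply (S := (S : Set G)) (fun x => f x) x)).symm

universe u v

/-- If a relational structure on `G` defines the two basic relations by symbols and its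
automorphism group has finitely many orbits on pairs, then its age is not Ramsey. -/
theorem no_ramsey (L : FirstOrder.Language.{u, v}) [L.IsRelational] [L.Structure G]
    (h1 : ∀ (n : ℕ) (r : Rel n), ∃ r' : L.Relations n, ∀ v : Fin n → G,
      Structure.RelMap r' v ↔ interp r v)
    (h2 : ∃ S : Set (Fin 2 → G), S.Finite ∧ ∀ v : Fin 2 → G, ∃ g : G ≃[L] G, g ∘ v ∈ S)
    (h3 : ∀ A ∈ L.age G, ∀ B ∈ L.age G, ∀ k : ℕ, 1 ≤ k → ∃ C ∈ L.age G,
      ∀ χ : (A ↪[L] C) → Fin k, ∃ f : B ↪[L] C, ∀ e e' : A ↪[L] B,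
        χ (f.comp e) = χ (f.comp e')) : False := by
  classical
  obtain ⟨S, hS, hg⟩ := h2
  choose g hg using hg
  have : Finite S := hS
  obtain ⟨m, hm, hcore⟩ := core (O := S) fun x y => ⟨g ![x, y] ∘ ![x, y], hg _⟩
  have : NeZero m := ⟨hm.ne'⟩
  refine hcore fun B => ?_
  have hage : ∀ T : Set G, T.Finite →
      (⟨Substructure.closure L T, inferInstance⟩ : Bundled L.Structure) ∈ L.age G := by
    intro T hT
    refine ⟨?_, ⟨Substructure.subtype _⟩⟩
    exact (Substructure.fg_iff_structure_fg _).1 (Substructure.fg_closure hT)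
  have hcl : ∀ (T : Set G) (x : G), x ∈ Substructure.closure L T ↔ x ∈ T := fun T x =>
    Substructure.mem_closure_iff_of_isRelational L T x
  set A : Set G := ⋃ p ∈ S, Set.range p with hA
  have hAfin : A.Finite := hS.biUnion fun p _ => Set.finite_range p
  set B' : Set G := (B : Set G) ∪ A ∪ ⋃ x ∈ B, ⋃ y ∈ B, (g ![x, y]).symm '' A with hB'
  have hB'fin : B'.Finite := (B.finite_toSet.union hAfin).union
    (B.finite_toSet.biUnion fun x _ => B.finite_toSet.biUnion fun y _ => hAfin.image _)
  cases nonempty_fintype (S → Bool × ZMod m)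
  let enc := Fintype.equivFin (S → Bool × ZMod m)
  obtain ⟨C, ⟨-, ⟨j⟩⟩, hC⟩ := h3 _ (hage A hAfin) _ (hage B' hB'fin)
    (Fintype.card (S → Bool × ZMod m)) Fintype.card_pos
  have hpA : ∀ (p : S) (i : Fin 2), p.1 i ∈ Substructure.closure L A := fun p i =>
    (hcl _ _).2 (Set.mem_biUnion p.2 (Set.mem_range_self i))
  obtain ⟨f, hf⟩ := hC fun e => enc fun p => col m (j (e ⟨p.1 0, hpA p 0⟩)) (j (e ⟨p.1 1, hpA p 1⟩))
  let F : Substructure.closure L B' ↪[L] G := j.comp f
  let e0 : Substructure.closure L A ↪[L] Substructure.closure L B' :=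
    Substructure.inclusion (Substructure.closure_mono fun x hx => Or.inl (Or.inr hx))
  have hBsub : (B : Set G) ⊆ (Substructure.closure L B' : Set G) := fun x hx =>
    (hcl _ _).2 (Or.inl (Or.inl hx))
  have hgood : Good (Substructure.closure L B' : Set G) (tot fun x => F x) := by
    refine good_tot _ F.injective fun n r v => ?_
    obtain ⟨r', hr'⟩ := h1 n r
    rw [← hr', ← hr']
    exact F.map_rel r' v
  refine ⟨_, hgood.mono hBsub,
    fun p => col m (F (e0 ⟨p.1 0, hpA p 0⟩)) (F (e0 ⟨p.1 1, hpA p 1⟩)), fun x hx y hy => ?_⟩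
  let e1 : Substructure.closure L A ↪[L] Substructure.closure L B' :=
    Embedding.codRestrict _ ((g ![x, y]).symm.toEmbedding.comp (Substructure.subtype _))
      fun a => (hcl _ _).2 (Or.inr (Set.mem_biUnion hx (Set.mem_biUnion hy
        ⟨a.1, (hcl _ _).1 a.2, rfl⟩)))
  have hcol := congrFun (enc.injective (hf e1 e0)) ⟨g ![x, y] ∘ ![x, y], hg _⟩
  refine Eq.trans ?_ hcol
  rw [tot_apply (S := (Substructure.closure L B' : Set G)) (fun x => F x) ⟨x, hBsub hx⟩,
    tot_apply (S := (Substructure.closure L B' : Set G)) (fun x => F x) ⟨y, hBsub hy⟩]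
  have ex : (⟨x, hBsub hx⟩ : Substructure.closure L B') =
      e1 ⟨(g ![x, y] ∘ ![x, y]) 0, hpA ⟨_, hg _⟩ 0⟩ :=
    Subtype.ext ((g ![x, y]).symm_apply_apply x).symm
  have ey : (⟨y, hBsub hy⟩ : Substructure.closure L B') =
      e1 ⟨(g ![x, y] ∘ ![x, y]) 1, hpA ⟨_, hg _⟩ 1⟩ :=
    Subtype.ext ((g ![x, y]).symm_apply_apply y).symm
  exact congrArg₂ (fun a b => col m (F a) (F b)) ex ey

end Pool.Agent.P.MP_fec245_lc
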